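import Pool.Agent.D0H64.MX.Stm

/-! Module FIB: the number of the subfields of a Galois extension. -/

set_option autoImplicit false

open NumberField

namespace Pool.Agent.D0H70.MX

open Pool.Agent.TH444.ML Pool.Agent.D0H64.MX

theorem t_FIB : S_FIB := by
  classical
  intro K Ω _ _ _ _ _ H _ _ N hN
  obtain ⟨hfd, hgal, ⟨e⟩⟩ := hN
  have := hfd
  have := hgal
  have : Finite (N ≃ₐ[K] N) := Finite.of_equiv H e.symm.toEquiv
  have : Finite (Subgroup (N ≃ₐ[K] N)) := inferInstance
  have hr : {M : IntermediateField K Ω | M ≤ N} =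
      Set.range (IntermediateField.lift : IntermediateField K N → IntermediateField K Ω) := by
    ext M
    constructor
    · intro h
      exact ⟨IntermediateField.restrict h, IntermediateField.lift_restrict h⟩
    · rintro ⟨M', rfl⟩
      exact IntermediateField.lift_le M'
  let ee : IntermediateField K N ≃ (Subgroup (N ≃ₐ[K] N))ᵒᵈ :=
    (IsGalois.intermediateFieldEquivSubgroup (F := K) (E := N)).toEquiv
  have : Finite (Subgroup (N ≃ₐ[K] N))ᵒᵈ := inferInstanceAs (Finite (Subgroup (N ≃ₐ[K] N)))
  have : Finite (IntermediateField K N) := Finite.of_equiv _ ee.symm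
  rw [hr]
  refine ⟨Set.finite_range _, ?_⟩
  have h1 : (Set.range (IntermediateField.lift : IntermediateField K N → IntermediateField K Ω)).ncard
      ≤ Nat.card (IntermediateField K N) := by
    rw [← Set.image_univ, ← Set.ncard_univ]
    exact Set.ncard_image_le Set.finite_univ
  have h2 : Nat.card (IntermediateField K N) = Nat.card (Subgroup (N ≃ₐ[K] N)) := Nat.card_congr ee
  have h3 : Nat.card (Subgroup (N ≃ₐ[K] N)) ≤ Nat.card (Set (N ≃ₐ[K] N)) :=
    Nat.card_le_card_of_injective (fun S => (S : Set (N ≃ₐ[K] N))) SetLike.coe_injective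
  have h4 : Nat.card (Set (N ≃ₐ[K] N)) = 2 ^ Nat.card H := by
    let _ := Fintype.ofFinite (N ≃ₐ[K] N)
    rw [Nat.card_eq_fintype_card, Fintype.card_set, ← Nat.card_eq_fintype_card,
      Nat.card_congr e.toEquiv]
  calc _ ≤ _ := h1
    _ = _ := h2
    _ ≤ _ := h3
    _ = _ := h4

end Pool.Agent.D0H70.MX
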