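import Pool.Agent.D0H64.MX.Stm

/-! Module SPD: complete splitting goes down. -/

set_option autoImplicit false
set_option linter.deprecated false

open NumberField

namespace Pool.Agent.D0H70.MX

open Pool.Agent.TH444.ML Pool.Agent.D0H64.MX

theorem ncard_le (K M : Type) [Field K] [NumberField K] [Field M] [NumberField M] [Algebra K M]
    (p : Ideal (𝓞 K)) (hp : p.IsPrime) (h0 : p ≠ ⊥) :
    (p.primesOver (𝓞 M)).Finite ∧ Set.ncard (p.primesOver (𝓞 M)) ≤ Module.finrank K M := by
  classical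
  have hm : p.IsMaximal := hp.isMaximal h0
  refine ⟨IsDedekindDomain.primesOver_finite p (𝓞 M), ?_⟩
  rw [← IsDedekindDomain.coe_primesOverFinset h0 (𝓞 M), Set.ncard_coe_finset]
  have : NoZeroSMulDivisors (𝓞 K) (𝓞 M) := by
    constructor
    intro c x hcx
    exact smul_eq_zero.1 hcx
  exact Ideal.card_primesOverFinset_le_finrank (𝓞 M) K M h0

theorem t_SPD : S_SPD := by
  classical
  intro K M N _ _ _ _ _ _ _ _ _ _ p hp h0 h
  have hM := ncard_le K M p hp h0
  refine le_antisymm hM.2 ?_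
  have hfin := hM.1
  have hcov : (p.primesOver (𝓞 N)) ⊆ ⋃ P ∈ hfin.toFinset, Ideal.primesOver P (𝓞 N) := by
    intro Q hQ
    have hQ1 : Q.IsPrime := hQ.1
    have hQ2 : Q.LiesOver p := hQ.2
    rw [Set.mem_iUnion₂]
    refine ⟨Q.under (𝓞 M), ?_, ⟨hQ1, inferInstance⟩⟩
    rw [Set.Finite.mem_toFinset]
    refine ⟨inferInstance, ?_⟩
    constructor
    rw [Ideal.under_under]
    exact hQ2.over
  have hPN : ∀ P ∈ hfin.toFinset, (Ideal.primesOver P (𝓞 N)).Finite ∧
      (Ideal.primesOver P (𝓞 N)).ncard ≤ Module.finrank M N := by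
    intro P hP
    rw [Set.Finite.mem_toFinset] at hP
    have hP1 : P.IsPrime := hP.1
    have hP2 : P.LiesOver p := hP.2
    refine ncard_le M N P hP1 ?_
    exact Ideal.ne_bot_of_liesOver_of_ne_bot h0 P
  have h1 : (p.primesOver (𝓞 N)).ncard ≤ ∑ P ∈ hfin.toFinset, (Ideal.primesOver P (𝓞 N)).ncard := by
    refine (Set.ncard_le_ncard hcov ?_).trans ?_
    · exact Set.Finite.biUnion (Finset.finite_toSet _) (fun P hP => (hPN P hP).1)
    · exact Finset.set_ncard_biUnion_le _ _
  have h2 : ∑ P ∈ hfin.toFinset, (Ideal.primesOver P (𝓞 N)).ncard ≤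
      Set.ncard (p.primesOver (𝓞 M)) * Module.finrank M N := by
    rw [Set.ncard_eq_toFinset_card _ hfin, ← smul_eq_mul]
    exact Finset.sum_le_card_nsmul _ _ _ (fun P hP => (hPN P hP).2)
  have h3 : Module.finrank K M * Module.finrank M N = Module.finrank K N :=
    Module.finrank_mul_finrank K M N
  have h4 : 0 < Module.finrank M N := Module.finrank_pos
  rw [h, ← h3] at h1
  exact Nat.le_of_mul_le_mul_right (h1.trans h2) h4

end Pool.Agent.D0H70.MX
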