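import Pool.Agent.D0H70.MX.Spd
import Pool.Agent.TH857.J3095

/-! Module SSX: the totally split primes of an extension which need not be Galois. -/

set_option autoImplicit false

open NumberField

namespace Pool.Agent.D0H70.MX

open Pool.Agent.TH444.ML Pool.Agent.D0H64.MX

theorem t_SSX : S_SPD → S_SSX := by
  intro hSPD K M _ _ _ _ _ hs
  have hfd : FiniteDimensional K M := inferInstance
  let N := IntermediateField.normalClosure K M (AlgebraicClosure M)
  have hfdN : FiniteDimensional K N := normalClosure.is_finiteDimensional K M (AlgebraicClosure M)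
  have hnN : NumberField N := by
    have : CharZero N := charZero_of_injective_algebraMap (algebraMap K N).injective
    have : FiniteDimensional ℚ N := Module.Finite.trans K N
    exact ⟨⟩
  have hgal : IsGalois K N := by
    have : Normal K N := normalClosure.normal K M (AlgebraicClosure M)
    exact ⟨⟩
  have hsc : IsScalarTower K M N := inferInstance
  apply Pool.Agent.TH857.J3095.splitSum K N
  refine (hs.comp_injective (i := fun p : {p : Ideal (𝓞 K) // p.IsPrime ∧ p ≠ ⊥ ∧
      Set.ncard (p.primesOver (𝓞 N)) = Module.finrank K N} =>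
    (⟨p.1, p.2.1, p.2.2.1, hSPD K M N p.1 p.2.1 p.2.2.1 p.2.2.2⟩ : {p : Ideal (𝓞 K) //
      p.IsPrime ∧ p ≠ ⊥ ∧ Set.ncard (p.primesOver (𝓞 M)) = Module.finrank K M})) ?_)
  intro p q hpq
  exact Subtype.ext (congrArg (fun z => z.1) hpq)

end Pool.Agent.D0H70.MX
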